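import Pool.Agent.Q233.SW.Roots

set_option autoImplicit false

/-!
# Smooth subvarieties of any codimension with small normal Chern roots

Let `X ⊂ P^n` be smooth of codimension `r`.  If `n ≥ 4 r`, the Chern classes of the normal bundle are
multiples of powers of the hyperplane class (Barth-Larsen), so its Chern roots are complex numbers
`x_1, …, x_r`, with product the degree of `X`, and the Hilbert polynomial of `X` is
`∑_S (-1)^|S| C(t - x_S + n, n)`.  If `n ≥ 4 ∑ |x_i| + 5 * 2^r + 3`, then the `x_i` are positive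
integers: `X` has the Hilbert polynomial of a complete intersection.
-/

open Finset MvPolynomial

namespace Pool.Agent.Results.MP_9a3fdb_ag.NumericalCompleteIntersection

/-- the affine cone over the projective zero set `X` of the ideal `I` -/
def cone {n : ℕ} (I : Ideal (MvPolynomial (Fin (n + 1)) ℂ)) : Set (Fin (n + 1) → ℂ) :=
  {x | ∀ F ∈ I, eval x F = 0}

/-- the gradient at the point `x` -/
noncomputable def grad {n : ℕ} (F : MvPolynomial (Fin (n + 1)) ℂ) (x : Fin (n + 1) → ℂ) :
    Fin (n + 1) → ℂ := fun i => eval x (pderiv i F)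

/-- the conormal space at the point `x` of the cone -/
noncomputable def conormal {n : ℕ} (I : Ideal (MvPolynomial (Fin (n + 1)) ℂ))
    (x : Fin (n + 1) → ℂ) : Submodule ℂ (Fin (n + 1) → ℂ) :=
  Submodule.span ℂ {v | ∃ F ∈ I, v = grad F x}

/-- `I` is the homogeneous ideal of a nonsingular irreducible closed subvariety `X` of
codimension `r` of the complex projective space `ℙⁿ`: it is a homogeneous prime ideal, `X` is not
empty, and at every point of `X` the gradients of the elements of `I` span a space of dimension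
`r` (Jacobian criterion). -/
structure IsSmoothVariety (n r : ℕ) (I : Ideal (MvPolynomial (Fin (n + 1)) ℂ)) : Prop where
  prime : I.IsPrime
  homogeneous : ∀ F ∈ I, ∀ d, homogeneousComponent d F ∈ I
  nonempty : ∃ x ∈ cone I, x ≠ 0
  smooth : ∀ x ∈ cone I, x ≠ 0 → Module.finrank ℂ (conormal I x) = r

/-- The Hilbert function of `I`: the dimension of the image of the forms of degree `t` in
`ℂ[x_0, …, x_n] ⧸ I`. -/
noncomputable def hilb {n : ℕ} (I : Ideal (MvPolynomial (Fin (n + 1)) ℂ)) (t : ℕ) : ℕ :=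
  Module.finrank ℂ
    ((homogeneousSubmodule (Fin (n + 1)) ℂ t).map (Ideal.Quotient.mkₐ ℂ I).toLinearMap)

/-- `x_1, …, x_r` are the Chern roots of the normal bundle `N` of `X`:

* they are not zero (`∏ x_i` is the degree of `X`) and their sum is an integer (`c_1(N)`);
* the Chern classes of `N(-1)`, the coefficients of `∏ (T + x_i - 1)`, are real and not negative
  (`N(-1)` is generated by its sections);
* the Hilbert polynomial of `X` is given by the theorem of Riemann-Roch:
  `dim (S/I)_t = ∑_S (-1)^|S| C(t - x_S + n, n)`, `x_S = ∑_{i ∈ S} x_i`, for all large `t`. -/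
structure IsNormalRoots {n r : ℕ} (I : Ideal (MvPolynomial (Fin (n + 1)) ℂ)) (x : Fin r → ℂ) :
    Prop where
  ne_zero : ∀ i, x i ≠ 0
  sum_int : ∃ c : ℤ, ∑ i, x i = c
  nonneg : ∀ k, ∃ b : ℝ, 0 ≤ b ∧ (∏ i, (Polynomial.X + Polynomial.C (x i - 1))).coeff k = (b : ℂ)
  hilbert : ∃ t₀ : ℕ, ∀ t : ℕ, t₀ ≤ t → (n.factorial : ℂ) * (hilb I t : ℂ) =
    ∑ S : Finset (Fin r), (-1 : ℂ) ^ S.card * ∏ j ∈ range n, ((t : ℂ) - ∑ i ∈ S, x i + (j + 1))

lemma prod_bin (z : ℂ) (n : ℕ) : ∏ i ∈ range n, (z + (i + 1)) =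
    (n.factorial : ℂ) * Pool.Agent.Q233.SW.bin (z + n) n := by
  unfold Pool.Agent.Q233.SW.bin
  rw [mul_div_cancel₀ _ (Pool.Agent.Q233.SW.fact_ne n), ← Finset.prod_range_reflect]
  refine prod_congr rfl fun j hj => ?_
  have hj' := mem_range.1 hj
  have e : ((n - 1 - j : ℕ) : ℂ) = (n : ℂ) - 1 - j := by
    rw [Nat.cast_sub (by omega), Nat.cast_sub (by omega)]; simp
  rw [e]
  ring

/-- Let `X ⊂ ℙⁿ` be a nonsingular subvariety of codimension `r` whose normal bundle has the Chern
roots `x_1, …, x_r`.  If `n ≥ 4 (|x_1| + … + |x_r|) + 5 * 2^r + 3`, then the `x_i` are positive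
integers `d_i`, and the Hilbert polynomial of `X` is that of a complete intersection of `r`
hypersurfaces of degrees `d_1, …, d_r`:
`dim (S/I)_t = ∑_S (-1)^|S| C(t + n - d_S, n)`, `d_S = ∑_{i ∈ S} d_i`, for all large `t`. -/
theorem result {n r : ℕ} (I : Ideal (MvPolynomial (Fin (n + 1)) ℂ)) (_hI : IsSmoothVariety n r I)
    (x : Fin r → ℂ) (hx : IsNormalRoots I x)
    (hn : 4 * ∑ i, ‖x i‖ + 5 * 2 ^ r + 3 ≤ (n : ℝ)) :
    ∃ d : Fin r → ℕ, (∀ i, 1 ≤ d i) ∧ (∀ i, x i = d i) ∧
      ∃ t₀ : ℕ, ∀ t : ℕ, t₀ ≤ t → (∀ S : Finset (Fin r), ∑ i ∈ S, d i ≤ t) ∧ (hilb I t : ℤ) =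
        ∑ S : Finset (Fin r), (-1) ^ S.card * ((t + n - ∑ i ∈ S, d i).choose n : ℤ) := by
  classical
  obtain ⟨c, hc⟩ := hx.sum_int
  obtain ⟨t₀, ht⟩ := hx.hilbert
  have hf := Pool.Agent.Q233.SW.fact_ne n
  have hH : ∀ t : ℕ, t₀ ≤ t → (hilb I t : ℂ) = ∑ S : Finset (Fin r),
      (-1 : ℂ) ^ S.card * Pool.Agent.Q233.SW.bin ((t : ℂ) - ∑ i ∈ S, x i + n) n := by
    intro t h1
    apply mul_left_cancel₀ hf
    rw [ht t h1, mul_sum]
    refine sum_congr rfl fun S _ => ?_
    rw [prod_bin]; ring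
  have hint : ∀ i, Pool.Agent.Q233.SW.IsInt (x i) := by
    refine Pool.Agent.Q233.SW.roots_int hx.ne_zero hc hn ⟨n + t₀, fun s hs => ?_⟩
    obtain ⟨t, rfl⟩ : ∃ t : ℕ, s = t + n := ⟨(s - n).toNat, by omega⟩
    refine ⟨hilb I t, ?_⟩
    push_cast
    rw [hH t (by omega)]
    refine sum_congr rfl fun S _ => ?_
    congr 2
    ring
  choose a ha using hint
  -- the roots are positive
  have hpos : ∀ i, 1 ≤ a i := by
    intro i
    by_contra hcon
    push Not at hcon
    obtain ⟨P, hP⟩ : ∃ P : Polynomial ℂ, P = ∏ i, (Polynomial.X + Polynomial.C (x i - 1)) :=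
      ⟨_, rfl⟩
    have hPm : P.Monic := by
      rw [hP]; exact Polynomial.monic_prod_of_monic _ _ fun i _ => Polynomial.monic_X_add_C _
    obtain ⟨T, hT⟩ : ∃ T : ℝ, T = 1 - a i := ⟨_, rfl⟩
    have hT1 : 1 ≤ T := by
      have : (a i : ℝ) ≤ 0 := by exact_mod_cast (by omega : a i ≤ 0)
      rw [hT]; linarith
    have hroot : P.eval (T : ℂ) = 0 := by
      rw [hP, Polynomial.eval_prod]
      refine prod_eq_zero (i := i) (mem_univ i) ?_
      simp only [Polynomial.eval_add, Polynomial.eval_X, Polynomial.eval_C]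
      rw [hT, ha i]; push_cast; ring
    have hnn := hx.nonneg
    rw [← hP] at hnn
    choose b hb0 hb using hnn
    rw [Polynomial.eval_eq_sum_range] at hroot
    have h1 : ((∑ k ∈ range (P.natDegree + 1), b k * T ^ k : ℝ) : ℂ) = 0 := by
      push_cast
      rw [← hroot]
      refine sum_congr rfl fun k _ => ?_
      rw [hb]
    have h2 : ∑ k ∈ range (P.natDegree + 1), b k * T ^ k = 0 := by exact_mod_cast h1
    have h3 : b P.natDegree = 1 := by
      have := hb P.natDegree
      rw [hPm.coeff_natDegree] at this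
      exact_mod_cast this.symm
    have h4 : b P.natDegree * T ^ P.natDegree ≤ ∑ k ∈ range (P.natDegree + 1), b k * T ^ k :=
      single_le_sum (f := fun k => b k * T ^ k)
        (fun k _ => mul_nonneg (hb0 k) (by positivity)) (mem_range.2 (by omega))
    rw [h2, h3, one_mul] at h4
    have : 0 < T ^ P.natDegree := by positivity
    linarith
  refine ⟨fun i => (a i).toNat, fun i => ?_, fun i => ?_, t₀ + ∑ i, (a i).toNat, fun t h1 => ?_⟩
  · have := hpos i
    show 1 ≤ (a i).toNat
    omega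
  · have := hpos i
    have e : (((a i).toNat : ℤ)) = a i := by omega
    rw [ha i]
    exact_mod_cast congrArg (Int.cast : ℤ → ℂ) e.symm
  · have hS : ∀ S : Finset (Fin r), ∑ i ∈ S, (a i).toNat ≤ t := by
      intro S
      have := sum_le_sum_of_subset (f := fun i => (a i).toNat) (subset_univ S)
      omega
    refine ⟨hS, ?_⟩
    have h2 := hH t (by omega)
    have h3 : (hilb I t : ℂ) = ((∑ S : Finset (Fin r),
        (-1) ^ S.card * ((t + n - ∑ i ∈ S, (a i).toNat).choose n : ℤ) : ℤ) : ℂ) := by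
      rw [h2]
      push_cast
      refine sum_congr rfl fun S _ => ?_
      congr 1
      have e : (t : ℂ) - ∑ i ∈ S, x i + n = ((t + n - ∑ i ∈ S, (a i).toNat : ℕ) : ℂ) := by
        rw [Nat.cast_sub (by have := hS S; omega)]
        push_cast
        have : ∑ i ∈ S, x i = ∑ i ∈ S, (((a i).toNat : ℕ) : ℂ) := by
          refine sum_congr rfl fun i _ => ?_
          have h5 := hpos i
          have e : (((a i).toNat : ℤ)) = a i := by omega
          rw [ha i]
          exact_mod_cast congrArg (Int.cast : ℤ → ℂ) e.symm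
        rw [this]; ring
      rw [e, Pool.Agent.Q233.SW.bin_natCast]
    exact_mod_cast h3

end Pool.Agent.Results.MP_9a3fdb_ag.NumericalCompleteIntersection
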