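import Pool.Agent.Q72.TI.TaskP
import Pool.Agent.Q72.TI.Lift2
import Pool.Agent.Q72.TI.Hom2
import Pool.Agent.Q72.TI.Kap2
import Pool.Agent.Q72.TI.Split2
import Pool.Agent.Q72.TI.Phi2

/-!
# Codimension two and test morphisms

Let `X ⊂ P^n` be a nonsingular subvariety of codimension two which is the zero scheme of a section
of a rank two bundle `E` (for `n ≥ 6` every nonsingular `X` of codimension two is), and let
`ψ : P^m → P^n`, `m ≥ 2`, be a composition of linear embeddings and of maps `x_i ↦ x_i ^ f`. If the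
subscheme `ψ⁻¹(X)` of `P^m` lies on two hypersurfaces without common component, whose degrees add
up to the degree of `ψ^* c₁(E)`, then `X` is a transversal intersection of two hypersurfaces.
-/

set_option autoImplicit false

open MvPolynomial H960VB H938TB

namespace Pool.Agent.Results.MP_9a3fdb_ag.TestMorphisms

/-- the affine cone over the projective zero set `X` of the ideal `I` -/
def cone {n : ℕ} (I : Ideal (MvPolynomial (Fin (n + 1)) ℂ)) : Set (Fin (n + 1) → ℂ) :=
  {x | ∀ F ∈ I, eval x F = 0}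

/-- the gradient at the point `x` -/
noncomputable def grad {n : ℕ} (F : MvPolynomial (Fin (n + 1)) ℂ) (x : Fin (n + 1) → ℂ) :
    Fin (n + 1) → ℂ := fun i => eval x (pderiv i F)

/-- the conormal space at the point `x` of the cone -/
noncomputable def conormal {n : ℕ} (I : Ideal (MvPolynomial (Fin (n + 1)) ℂ))
    (x : Fin (n + 1) → ℂ) : Submodule ℂ (Fin (n + 1) → ℂ) :=
  Submodule.span ℂ {v | ∃ F ∈ I, v = grad F x}

/-- `I` is the homogeneous ideal of a nonsingular irreducible closed subvariety `X` of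
codimension `r` of the complex projective space `ℙⁿ`: it is a homogeneous prime ideal, `X` is not
empty, and at every point of `X` the gradients of the elements of `I` span a space of dimension
`r` (Jacobian criterion). -/
structure IsSmoothVariety (n r : ℕ) (I : Ideal (MvPolynomial (Fin (n + 1)) ℂ)) : Prop where
  prime : I.IsPrime
  homogeneous : ∀ F ∈ I, ∀ d, homogeneousComponent d F ∈ I
  nonempty : ∃ x ∈ cone I, x ≠ 0
  smooth : ∀ x ∈ cone I, x ≠ 0 → Module.finrank ℂ (conormal I x) = r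

/-- `X` is a transversal intersection of `r` hypersurfaces: there are forms `F_1, …, F_r` with
`X = V(F_1, …, F_r)`, with linearly independent differentials at every point of `X`, and
generating the homogeneous ideal `I` of `X`. -/
def IsTransversalIntersection (n r : ℕ) (I : Ideal (MvPolynomial (Fin (n + 1)) ℂ)) : Prop :=
  ∃ F : Fin r → MvPolynomial (Fin (n + 1)) ℂ, (∀ i, ∃ d, (F i).IsHomogeneous d) ∧
    (∀ x, x ∈ cone I ↔ ∀ i, eval x (F i) = 0) ∧
    (∀ x ∈ cone I, x ≠ 0 → LinearIndependent ℂ (fun i => grad (F i) x)) ∧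
    I = Ideal.span (Set.range F)

/-- `X` is, as a scheme, the zero scheme of the global section `s` of the rank two bundle `E`: the
ideal `I` of `X` is the saturation of the ideal generated by the coordinates of `s`. -/
def IsZeroScheme {n : ℕ} (E : Bundle2 n) (s : Fin E.a → MvPolynomial (Fin (n + 1)) ℂ)
    (I : Ideal (MvPolynomial (Fin (n + 1)) ℂ)) : Prop :=
  E.IsSection 0 s ∧ ∀ F, F ∈ I ↔ ∃ N : ℕ, ∀ i, X i ^ N * F ∈ Ideal.span (Set.range s)

/-- The morphisms `P^m → P^n`, `m ≥ 2`, of degree `e`, given by maps `ψ : ℂ^(m+1) → ℂ^(n+1)`, which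
are compositions of linear embeddings and of the maps `x_i ↦ x_i ^ f`. -/
inductive Test (n : ℕ) : (m e : ℕ) → ((Fin (m + 1) → ℂ) → Fin (n + 1) → ℂ) → Prop
  | id (hn : 2 ≤ n) : Test n n 1 id
  | lin {m e : ℕ} {ψ : (Fin (m + 1) → ℂ) → Fin (n + 1) → ℂ} (h : Test n m e ψ)
      (k : ℕ) (hk : 2 ≤ k) (T : (Fin (k + 1) → ℂ) →ₗ[ℂ] (Fin (m + 1) → ℂ))
      (hT : Function.Injective T) : Test n k e (fun x => ψ (T x))
  | pow {m e : ℕ} {ψ : (Fin (m + 1) → ℂ) → Fin (n + 1) → ℂ} (h : Test n m e ψ)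
      (f : ℕ) (hf : 0 < f) : Test n m (f * e) (fun x => ψ (fun i => x i ^ f))

/-- The hypersurface `f = 0` of `P^m` contains the subscheme `ψ⁻¹(X)`: `f` lies in the saturation
of the ideal generated by the polynomials `F ∘ ψ`, `F ∈ I`. -/
def ContainsPreimage {n m : ℕ} (ψ : (Fin (m + 1) → ℂ) → Fin (n + 1) → ℂ)
    (I : Ideal (MvPolynomial (Fin (n + 1)) ℂ)) (f : MvPolynomial (Fin (m + 1)) ℂ) : Prop :=
  ∃ N : ℕ, ∀ i, X i ^ N * f ∈ Ideal.span {p | ∃ F ∈ I, ∀ x, eval x p = eval (ψ x) F}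

/-- `c₁(E) = c`: there is an isomorphism `O(c) ≅ Λ²E`, that is, a nowhere vanishing section `P` of
`Λ²E(-c)`; at each point it is `u ∧ v` for a basis `u, v` of the fibre. -/
def HasC1 {n : ℕ} (E : Bundle2 n) (c : ℤ) : Prop :=
  ∃ P : Fin E.a → Fin E.a → MvPolynomial (Fin (n + 1)) ℂ,
    (∀ i j, HomZ (P i j) (E.β i + E.β j - c)) ∧
    ∀ x : Fin (n + 1) → ℂ, x ≠ 0 → ∃ u v : Fin E.a → ℂ, u ∈ E.fib x ∧ v ∈ E.fib x ∧
      LinearIndependent ℂ ![u, v] ∧ ∀ i j, eval x (P i j) = u i * v j - u j * v i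

theorem test_iff {n m e : ℕ} {ψ : (Fin (m + 1) → ℂ) → Fin (n + 1) → ℂ} (h : Test n m e ψ) :
    2 ≤ n ∧ Pool.Agent.Results.MP_745d3a_ag.TestSurfaces.Test n m e ψ := by
  induction h with
  | id hn => exact ⟨hn, .id hn⟩
  | lin h k hk T hT ih => exact ⟨ih.1, .lin ih.2 k hk T hT⟩
  | pow h f hf ih => exact ⟨ih.1, .pow ih.2 f hf⟩

/-- elements which are locally in an ideal -/
theorem loc_of_span {m : ℕ} {J : Ideal (MvPolynomial (Fin (m + 1)) ℂ)}
    {S : Set (MvPolynomial (Fin (m + 1)) ℂ)} {x : Fin (m + 1) → ℂ}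
    (h : ∀ p ∈ S, ∃ q, eval x q ≠ 0 ∧ q * p ∈ J) :
    ∀ p ∈ Ideal.span S, ∃ q, eval x q ≠ 0 ∧ q * p ∈ J := by
  intro p hp
  induction hp using Submodule.span_induction with
  | mem p hp => exact h p hp
  | zero => exact ⟨1, by rw [map_one]; exact one_ne_zero, by rw [mul_zero]; exact J.zero_mem⟩
  | add p p' _ _ h1 h2 =>
    obtain ⟨q, hq, hqp⟩ := h1
    obtain ⟨q', hq', hqp'⟩ := h2
    refine ⟨q * q', by rw [map_mul]; exact mul_ne_zero hq hq', ?_⟩
    have h3 : q * q' * (p + p') = q' * (q * p) + q * (q' * p') := by ring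
    rw [h3]
    exact J.add_mem (J.mul_mem_left _ hqp) (J.mul_mem_left _ hqp')
  | smul a p _ h1 =>
    obtain ⟨q, hq, hqp⟩ := h1
    refine ⟨q, hq, ?_⟩
    have h3 : q * (a • p) = a * (q * p) := by rw [smul_eq_mul]; ring
    rw [h3]
    exact J.mul_mem_left _ hqp

theorem core (tLift : Pool.Agent.Q72.TI.TaskLift) (tHom : Pool.Agent.Q72.TI.TaskHom)
    (tKap : Pool.Agent.Q72.TI.TaskKap) (tSplit : Pool.Agent.Q72.TI.TaskSplit)
    (tPhi : Pool.Agent.Q72.TI.TaskPhi)
    {n m e : ℕ} (ψ : (Fin (m + 1) → ℂ) → Fin (n + 1) → ℂ) (hψ : Test n m e ψ)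
    (I : Ideal (MvPolynomial (Fin (n + 1)) ℂ)) (hI : IsSmoothVariety n 2 I)
    (E : Bundle2 n) (s : Fin E.a → MvPolynomial (Fin (n + 1)) ℂ) (hs : IsZeroScheme E s I)
    (c : ℤ) (hc : HasC1 E c)
    (f g : MvPolynomial (Fin (m + 1)) ℂ) (hfψ : ContainsPreimage ψ I f)
    (hgψ : ContainsPreimage ψ I g) (hf0 : f ≠ 0) (hfg : IsRelPrime f g) (a b : ℕ)
    (hf : f.IsHomogeneous a) (hg : g.IsHomogeneous b) (hab : (a : ℤ) + b = e * c) :
    IsTransversalIntersection n 2 I := by
  classical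
  obtain ⟨hn, hψ'⟩ := test_iff hψ
  have hpr := hI.prime
  have Z : Pool.Agent.W467.FX.ZS E s I :=
    { sec := Pool.Agent.W615.sec_iff.2 hs.1
      prime := hI.prime
      mem := fun i => (hs.2 _).2 ⟨0, fun j => by
        rw [pow_zero, one_mul]
        exact Ideal.subset_span ⟨i, rfl⟩⟩
      gen := by
        intro F hF x hx
        obtain ⟨N, hN⟩ := (hs.2 F).1 hF
        obtain ⟨i, hi⟩ : ∃ i, x i ≠ 0 := by
          by_contra hc
          push Not at hc
          exact hx (funext hc)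
        exact ⟨X i ^ N, by rw [map_pow, eval_X]; exact pow_ne_zero _ hi, hN i⟩
      smooth := hI.smooth
      ne := hI.nonempty }
  obtain ⟨φ, hev, hhom, hne⟩ := tPhi n m e ψ hψ'
  obtain ⟨hm, c', β, γ, B, h1, h2, hβ, hfib, hsp⟩ :=
    Pool.Agent.Results.MP_745d3a_ag.TestSurfaces.exists_bundle hψ' E
  set E' : Bundle2 m := ⟨E.a, c', β, γ, B, h1, h2⟩ with hE'
  obtain ⟨W⟩ := exists_wedge (by omega : 1 ≤ m) (Pool.Agent.W615.triv E')
  have hP := fun i j => Pool.Agent.Q72.TI.TaskP.main m (by omega) E' W i j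
  have hC1 : Pool.Agent.Q72.PW.HasC1 E' (e * c) := by
    obtain ⟨P, hP1, hP2⟩ := hc
    refine ⟨fun i j => φ (P i j), fun i j => ?_, fun x hx => ?_⟩
    · have h3 := hhom _ _ (hP1 i j)
      have h4 : (e : ℤ) * (E.β i + E.β j - c) = E'.β i + E'.β j - e * c := by
        show _ = β i + β j - e * c
        rw [hβ, hβ]
        ring
      rw [h4] at h3
      exact h3
    · obtain ⟨u, v, hu, hv, hli, huv⟩ := hP2 (ψ x) (hne x hx)
      refine ⟨u, v, ?_, ?_, hli, fun i j => ?_⟩
      · rw [hfib]; exact hu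
      · rw [hfib]; exact hv
      · rw [hev]; exact huv i j
  have hκ : W.κ.1 = e * c := tKap m (by omega) E' W _ hP hC1
  -- the section
  set s' : Vec E'.a m := fun i => φ (s i) with hs'
  have hs1 : Pool.Agent.W615.Sec E' 0 s' := by
    apply Pool.Agent.W615.sec_of_isSection
    refine ⟨fun i => ?_, fun x hx => ?_⟩
    · have h3 := hhom _ _ (hs.1.1 i)
      have h4 : (e : ℤ) * (E.β i + 0) = E'.β i + 0 := by
        show _ = β i + 0
        rw [hβ, add_zero, add_zero]
      rw [h4] at h3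
      exact h3
    · rw [hfib]
      have h3 := hs.1.2 (ψ x) (hne x hx)
      have h4 : evv s' x = evv s (ψ x) := by
        funext i
        exact hev x (s i)
      rw [h4]
      exact h3
  have hloc : ∀ f : MvPolynomial (Fin (m + 1)) ℂ, ContainsPreimage ψ I f →
      ∀ x : Fin (m + 1) → ℂ, x ≠ 0 → ∃ q : MvPolynomial (Fin (m + 1)) ℂ, eval x q ≠ 0 ∧
        q * f ∈ Ideal.span (Set.range s') := by
    rintro f ⟨N, hN⟩ x hx
    obtain ⟨i, hi⟩ : ∃ i, x i ≠ 0 := by
      by_contra hc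
      push Not at hc
      exact hx (funext hc)
    obtain ⟨q, hq, hqf⟩ := loc_of_span (J := Ideal.span (Set.range s')) (x := x) (by
      rintro p ⟨F, hF, hp⟩
      have hpF : p = φ F := by
        apply MvPolynomial.funext
        intro y
        rw [hp, hev]
      obtain ⟨h, hh, hhF⟩ := Z.gen F hF (ψ x) (hne x hx)
      refine ⟨φ h, by rw [hev]; exact hh, ?_⟩
      rw [hpF, ← map_mul]
      have h5 := Ideal.mem_map_of_mem φ hhF
      rw [Ideal.map_span, ← Set.range_comp] at h5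
      exact h5) _ (hN i)
    refine ⟨q * X i ^ N, ?_, ?_⟩
    · rw [map_mul, map_pow, eval_X]
      exact mul_ne_zero hq (pow_ne_zero _ hi)
    · rw [mul_assoc]
      exact hqf
  have hprm : Pool.Agent.W615.Prm s' := by
    intro p hp
    by_contra hu
    obtain ⟨π, hπ, hπs⟩ : ∃ π : MvPolynomial (Fin (m + 1)) ℂ, Prime π ∧ ∀ i, π ∣ s' i := by
      by_cases h0 : p = 0
      · refine ⟨X 0, X_prime, fun i => ?_⟩
        have h3 := hp i
        rw [h0, zero_dvd_iff] at h3
        rw [h3]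
        exact dvd_zero _
      · obtain ⟨π, hπ, hπp⟩ := WfDvdMonoid.exists_irreducible_factor hu h0
        exact ⟨π, UniqueFactorizationMonoid.irreducible_iff_prime.1 hπ,
          fun i => hπp.trans (hp i)⟩
    obtain ⟨v, hv, hv0⟩ := no_isolated_prime (by omega : 2 ≤ m + 1) π hπ
    have key : ∀ f : MvPolynomial (Fin (m + 1)) ℂ, ContainsPreimage ψ I f → π ∣ f := by
      intro f hf
      obtain ⟨q, hq, hqf⟩ := hloc f hf v hv
      have h3 : Ideal.span (Set.range s') ≤ Ideal.span {π} := by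
        rw [Ideal.span_le]
        rintro _ ⟨i, rfl⟩
        exact Ideal.mem_span_singleton.2 (hπs i)
      have h4 := Ideal.mem_span_singleton.1 (h3 hqf)
      rcases hπ.dvd_or_dvd h4 with ⟨r, hr⟩ | h5
      · exfalso
        apply hq
        rw [hr, map_mul, hv0, zero_mul]
      · exact h5
    exact hπ.not_isUnit (hfg (key f hfψ) (key g hgψ))
  have hlift : ∀ (f : MvPolynomial (Fin (m + 1)) ℂ) (a : ℕ), f.IsHomogeneous a →
      ContainsPreimage ψ I f → ∃ t : Vec E'.a m,
        Pool.Agent.W615.Sec E' (a - W.κ.1) t ∧ W.wd s' t = f := by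
    intro f a hf hfψ
    obtain ⟨t, ht, hw⟩ := tLift m hm E' W s' hs1.ker hprm f (hloc f hfψ)
    obtain ⟨t', ht', hw'⟩ := tHom m (by omega) E' W hP 0 a s' t f hs1 ht
      (Or.inr ⟨a, rfl, hf⟩) hw
    rw [sub_zero] at ht'
    exact ⟨t', ht', hw'⟩
  obtain ⟨t₁, ht₁, hw₁⟩ := hlift f a hf hfψ
  obtain ⟨t₂, ht₂, hw₂⟩ := hlift g b hg hgψ
  have hsplit : E.Splits := hsp.1 (tSplit m (by omega) E' W s' t₁ t₂ a b f g hs1 ht₁ ht₂ hw₁ hw₂
    (Or.inr ⟨a, rfl, hf⟩) (Or.inr ⟨b, rfl, hg⟩) hf0 hfg (by rw [hab, hκ]))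
  obtain ⟨F, G, hF, hG, hFG⟩ := Z.ci hn hsplit
  have hrange : I = Ideal.span (Set.range ![F, G]) := by
    rw [hFG, Matrix.range_cons, Matrix.range_cons, Matrix.range_empty, Set.union_empty]
    rfl
  refine ⟨![F, G], ?_, ?_, ?_, hrange⟩
  · intro i
    fin_cases i
    · exact hF
    · exact hG
  · intro x
    constructor
    · intro hx i
      apply hx
      rw [hrange]
      exact Ideal.subset_span ⟨i, rfl⟩
    · intro hx H hH
      have h1 : I ≤ RingHom.ker (eval x) := by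
        rw [hrange, Ideal.span_le]
        rintro _ ⟨i, rfl⟩
        exact hx i
      exact h1 hH
  · intro x hx hx0
    exact Pool.Agent.W467.FX.indep_of_span hrange hx (hI.smooth x hx hx0)

theorem result {n m e : ℕ} (ψ : (Fin (m + 1) → ℂ) → Fin (n + 1) → ℂ) (hψ : Test n m e ψ)
    (I : Ideal (MvPolynomial (Fin (n + 1)) ℂ)) (hI : IsSmoothVariety n 2 I)
    -- `X` is the zero scheme of a section of `E`
    (E : Bundle2 n) (s : Fin E.a → MvPolynomial (Fin (n + 1)) ℂ) (hs : IsZeroScheme E s I)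
    -- the first Chern class of `E`
    (c : ℤ) (hc : HasC1 E c)
    -- two hypersurfaces without common component containing `ψ⁻¹(X)`
    (f g : MvPolynomial (Fin (m + 1)) ℂ) (hfψ : ContainsPreimage ψ I f)
    (hgψ : ContainsPreimage ψ I g) (hf0 : f ≠ 0) (hfg : IsRelPrime f g) (a b : ℕ)
    (hf : f.IsHomogeneous a) (hg : g.IsHomogeneous b) (hab : (a : ℤ) + b = e * c) :
    IsTransversalIntersection n 2 I :=
  core Pool.Agent.Q72.TI.Lift2.main Pool.Agent.Q72.TI.Hom2.main Pool.Agent.Q72.TI.Kap2.main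
    Pool.Agent.Q72.TI.Split2.main Pool.Agent.Q72.TI.Phi2.main ψ hψ I hI E s hs c hc f g hfψ hgψ
    hf0 hfg a b hf hg hab

end Pool.Agent.Results.MP_9a3fdb_ag.TestMorphisms
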